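import Pool.Agent.H84.SS.Targets

/-!
# MP_352bb5_an, row M_INV: invariance of the limit functional
-/

set_option autoImplicit false

open MeasureTheory Filter Topology Set ProbabilityTheory
open scoped ENNReal ComplexConjugate
open Pool.Agent.H84.SS
open Pool.Agent.H85.RT (avg GoodWeight Good)
open Pool.Agent.H94.RTB (LGood PD)

universe u v

namespace Pool.Agent.H89.SS

section

variable {X : Type u} [MeasurableSpace X]

lemma norm_term_le (T : X ≃ᵐ X) (f g : X → ℂ) (w : ℕ → ℂ) (B : ℝ) (hf : ∀ x, ‖f x‖ ≤ 1)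
    (hg : ∀ x, ‖g x‖ ≤ 1) (hw : ∀ n, ‖w n‖ ≤ B) (i j k : ℕ) (x : X) :
    ‖w i * f (T^[j] x) * g (T.symm^[k] x)‖ ≤ B := by
  have hB : 0 ≤ B := (norm_nonneg _).trans (hw 0)
  rw [norm_mul, norm_mul]
  calc ‖w i‖ * ‖f (T^[j] x)‖ * ‖g (T.symm^[k] x)‖ ≤ B * 1 * 1 := by
        gcongr
        · exact hw i
        · exact hf _
        · exact hg _
    _ = B := by ring

lemma meas_diag (S : ℕ → X → ℂ) (hS : ∀ k, Measurable (S k)) (N : X → ℕ) (hN : Measurable N) :
    Measurable (fun x => S (N x) x) :=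
  (measurable_from_prod_countable_left (f := fun q : X × ℕ => S q.2 q.1) hS).comp
    (measurable_id.prodMk hN)

lemma measurable_ph (T : X ≃ᵐ X) (f g : X → ℂ) (w : ℕ → ℂ) (N : X → ℕ) (θ : X → ℂ)
    (hf : Measurable f) (hg : Measurable g) (hN : Measurable N) (hθ : Measurable θ)
    (a b c : ℕ) : Measurable (ph T f g w N θ a b c) := by
  have hit : ∀ n : ℕ, Measurable (T^[n]) := fun n => T.measurable.iterate n
  have hit' : ∀ n : ℕ, Measurable (T.symm^[n]) := fun n => T.symm.measurable.iterate n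
  have h0 : ∀ k : ℕ, Measurable (fun x : X => (∑ n ∈ Finset.Icc 1 k,
      w (n + a) * f (T^[n + b] x) * g (T.symm^[n + c] x)) / (k : ℂ)) := by
    intro k
    have h2 : Measurable (fun x : X => ∑ n ∈ Finset.Icc 1 k,
        w (n + a) * f (T^[n + b] x) * g (T.symm^[n + c] x)) := by
      refine Finset.measurable_sum _ fun n _ => ?_
      have h3 : Measurable fun x : X => f (T^[n + b] x) := hf.comp (hit _)
      have h4 : Measurable fun x : X => g (T.symm^[n + c] x) := hg.comp (hit' _)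
      exact (h3.const_mul (w (n + a))).mul h4
    exact h2.div_const (k : ℂ)
  exact hθ.mul (meas_diag (fun k x => (∑ n ∈ Finset.Icc 1 k,
    w (n + a) * f (T^[n + b] x) * g (T.symm^[n + c] x)) / (k : ℂ)) h0 N hN)

lemma norm_ph_le (T : X ≃ᵐ X) (f g : X → ℂ) (w : ℕ → ℂ) (B : ℝ) (N : X → ℕ) (θ : X → ℂ)
    (hf : ∀ x, ‖f x‖ ≤ 1) (hg : ∀ x, ‖g x‖ ≤ 1) (hw : ∀ n, ‖w n‖ ≤ B) (hθ : ∀ x, ‖θ x‖ ≤ 1)
    (hN : ∀ x, 1 ≤ N x) (a b c : ℕ) (x : X) : ‖ph T f g w N θ a b c x‖ ≤ B := by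
  have hB : 0 ≤ B := (norm_nonneg _).trans (hw 0)
  have hN0 : (0 : ℝ) < N x := by exact_mod_cast hN x
  unfold ph
  rw [norm_mul, norm_div, Complex.norm_natCast]
  have h1 : ‖∑ n ∈ Finset.Icc 1 (N x), w (n + a) * f (T^[n + b] x) * g (T.symm^[n + c] x)‖ ≤
      N x * B := by
    refine (norm_sum_le_of_le _ fun n _ => norm_term_le T f g w B hf hg hw _ _ _ x).trans
      (le_of_eq ?_)
    rw [Finset.sum_const, Nat.card_Icc, nsmul_eq_mul]
    norm_num
  have h2 : ‖∑ n ∈ Finset.Icc 1 (N x), w (n + a) * f (T^[n + b] x) * g (T.symm^[n + c] x)‖ /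
      (N x : ℝ) ≤ B := by
    rw [div_le_iff₀ hN0, mul_comm B]
    exact h1
  calc _ ≤ 1 * B := mul_le_mul (hθ x) h2 (by positivity) zero_le_one
    _ = B := one_mul B

lemma ph_shift (T : X ≃ᵐ X) (f g : X → ℂ) (w : ℕ → ℂ) (B : ℝ) (N : X → ℕ) (θ : X → ℂ)
    (hf : ∀ x, ‖f x‖ ≤ 1) (hg : ∀ x, ‖g x‖ ≤ 1) (hw : ∀ n, ‖w n‖ ≤ B) (hθ : ∀ x, ‖θ x‖ ≤ 1)
    (i : ℕ) (hN : ∀ x, i + 1 ≤ N x) (a b c : ℕ) (x : X) :
    ‖ph T f g w N θ (a + 1) (b + 1) (c + 1) x - ph T f g w N θ a b c x‖ ≤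
      2 * B / ((i : ℝ) + 1) := by
  have hB : 0 ≤ B := (norm_nonneg _).trans (hw 0)
  have hNi : ((i : ℝ) + 1) ≤ N x := by exact_mod_cast hN x
  have hi0 : (0 : ℝ) < (i : ℝ) + 1 := by positivity
  have hN0 : (0 : ℝ) < N x := by linarith
  set F : ℕ → ℂ := fun n => w (n + a) * f (T^[n + b] x) * g (T.symm^[n + c] x) with hF
  have h1 : ∀ M : ℕ, ∑ n ∈ Finset.Icc 1 M, F (n + 1) =
      ∑ n ∈ Finset.Icc 1 M, F n + (F (M + 1) - F 1) := by
    intro M
    induction M with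
    | zero => simp
    | succ M ih =>
      rw [Finset.sum_Icc_succ_top (by omega), Finset.sum_Icc_succ_top (by omega), ih]
      ring
  have h2 : ∀ n : ℕ, w (n + (a + 1)) * f (T^[n + (b + 1)] x) * g (T.symm^[n + (c + 1)] x) =
      F (n + 1) := by
    intro n
    rw [hF]
    have e1 : n + (a + 1) = n + 1 + a := by omega
    have e2 : n + (b + 1) = n + 1 + b := by omega
    have e3 : n + (c + 1) = n + 1 + c := by omega
    rw [e1, e2, e3]
  have h3 : ph T f g w N θ (a + 1) (b + 1) (c + 1) x - ph T f g w N θ a b c x =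
      θ x * ((F (N x + 1) - F 1) / (N x : ℂ)) := by
    unfold ph
    rw [Finset.sum_congr rfl fun n _ => h2 n, h1]
    ring
  have hFb : ∀ n, ‖F n‖ ≤ B := fun n => norm_term_le T f g w B hf hg hw _ _ _ x
  rw [h3, norm_mul, norm_div, Complex.norm_natCast]
  have h4 : ‖F (N x + 1) - F 1‖ ≤ 2 * B := by
    refine (norm_sub_le _ _).trans ?_
    linarith [hFb (N x + 1), hFb 1]
  calc ‖θ x‖ * (‖F (N x + 1) - F 1‖ / (N x : ℝ)) ≤ 1 * (2 * B / ((i : ℝ) + 1)) := by
        gcongr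
        exact hθ x
    _ = 2 * B / ((i : ℝ) + 1) := one_mul _

end

theorem pf_INV : M_INV.{u} := by
  intro X _ μ _ T f g w B N θ R hf hg hf1 hg1 hw hR hL
  have hB : 0 ≤ B := (norm_nonneg _).trans (hw 0)
  have hN1 : ∀ i x, 1 ≤ N i x := fun i x => le_trans (by omega) (hR.large i x)
  have hint : ∀ i a b c, Integrable (ph T f g w (N i) (θ i) a b c) μ := fun i a b c =>
    Integrable.of_bound (measurable_ph T f g w (N i) (θ i) hf hg (hR.measN i) (hR.measθ i)
      a b c).aestronglyMeasurable B (Eventually.of_forall fun x =>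
        norm_ph_le T f g w B (N i) (θ i) hf1 hg1 hw (hR.bddθ i) (hN1 i) a b c x)
  have hzero : Tendsto (fun i : ℕ => 2 * B / ((i : ℝ) + 1)) atTop (𝓝 0) := by
    have h := (tendsto_one_div_add_atTop_nhds_zero_nat (𝕜 := ℝ)).const_mul (2 * B)
    rw [mul_zero] at h
    refine h.congr fun i => ?_
    rw [mul_one_div]
  have key : ∀ a b c, R (a + 1) (b + 1) (c + 1) =ᵐ[μ] R a b c := by
    intro a b c
    have hm : MeasurableSpace.invariants T ≤ (inferInstance : MeasurableSpace X) :=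
      MeasurableSpace.invariants_le T
    refine ae_eq_of_forall_setIntegral_eq_of_sigmaFinite' hm
      (fun s _ _ => (hL.int _ _ _).integrableOn) (fun s _ _ => (hL.int _ _ _).integrableOn) ?_
      (hL.meas _ _ _).aestronglyMeasurable (hL.meas _ _ _).aestronglyMeasurable
    intro Q hQ _
    have h1 := (hL.lim (a + 1) (b + 1) (c + 1) Q hQ).sub (hL.lim a b c Q hQ)
    have h2 : Tendsto (fun i => ∫ x in Q, ph T f g w (N i) (θ i) (a + 1) (b + 1) (c + 1) x ∂μ -
        ∫ x in Q, ph T f g w (N i) (θ i) a b c x ∂μ) (hyperfilter ℕ) (𝓝 0) := by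
      refine squeeze_zero_norm (fun i => ?_) (hzero.mono_left Nat.hyperfilter_le_atTop)
      rw [← integral_sub (hint i _ _ _).integrableOn (hint i _ _ _).integrableOn]
      refine (norm_setIntegral_le_of_norm_le_const (measure_lt_top μ Q) fun x _ =>
        ph_shift T f g w B (N i) (θ i) hf1 hg1 hw (hR.bddθ i) i (hR.large i) a b c x).trans ?_
      have h5 : μ.real Q ≤ 1 := measureReal_le_one
      have h6 : 0 ≤ 2 * B / ((i : ℝ) + 1) := by positivity
      nlinarith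
    exact sub_eq_zero.1 (tendsto_nhds_unique h1 h2)
  refine ae_all_iff.2 fun a => ae_all_iff.2 fun b => ae_all_iff.2 fun c => ?_
  exact key a b c

end Pool.Agent.H89.SS
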